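import Mathlib

set_option autoImplicit false

namespace Pool.Agent.Results.MP_1611d4_co.No

open Finset

variable {W : Type*} [DecidableEq W]

/-- Facets: inclusion-maximal faces. -/
def IsFacet (D : Set (Finset W)) (s : Finset W) : Prop := s ∈ D ∧ ∀ t ∈ D, s ⊆ t → t = s

def IsPure (D : Set (Finset W)) : Prop := ∃ n, ∀ s, IsFacet D s → s.card = n

def link (D : Set (Finset W)) (v : W) : Set (Finset W) := {s | v ∉ s ∧ insert v s ∈ D}

def del (D : Set (Finset W)) (v : W) : Set (Finset W) := {s | s ∈ D ∧ v ∉ s}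

/-- Vertex-decomposable (Provan–Billera). -/
inductive VD : Set (Finset W) → Prop
  | simplex (S : Finset W) : VD {s | s ⊆ S}
  | shed (D : Set (Finset W)) (v : W) : IsPure D → {v} ∈ D → VD (link D v) → VD (del D v) →
      (∀ s, IsFacet (link D v) s → ¬ IsFacet (del D v) s) → VD D

/-- Shellable: all facets have `n` vertices, and they can be listed so that each facet after the
first meets the earlier ones in a complex all of whose facets have `n - 1` vertices. -/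
def Shellable (D : Set (Finset W)) : Prop :=
  ∃ n, (∀ F, IsFacet D F → F.card = n) ∧ ∃ l : List (Finset W), l.Nodup ∧
    (∀ F, F ∈ l ↔ IsFacet D F) ∧ ∀ l₁ F l₂, l = l₁ ++ F :: l₂ → l₁ ≠ [] →
      ∀ G, IsFacet {s | s ⊆ F ∧ ∃ F' ∈ l₁, s ⊆ F'} G → G.card + 1 = n

/-- Stack every facet `F`, with new vertex `Sum.inr F`. -/
def stack (K : Set (Finset W)) : Set (Finset (W ⊕ Finset W)) :=
  {s | (∃ G ∈ K, ¬ IsFacet K G ∧ s = G.map Function.Embedding.inl) ∨
    ∃ F G, IsFacet K F ∧ G ⊂ F ∧ s = insert (Sum.inr F) (G.map Function.Embedding.inl)}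

inductive Sh (n : ℕ) : Set (Finset W) → Prop
  | empty : Sh n ∅
  | add (K : Set (Finset W)) (F : Finset W) : Sh n K → F ∉ K →
      (∀ X ∈ K, ∃ Y ∈ K, F ∩ X ⊆ Y ∧ (F ∩ Y).card + 1 = n) → Sh n (insert F K)

lemma Sh.list {n : ℕ} {K : Set (Finset W)} (h : Sh n K) : ∃ l : List (Finset W), l.Nodup ∧
    (∀ F, F ∈ l ↔ F ∈ K) ∧ ∀ l₁ F l₂, l = l₁ ++ F :: l₂ → l₁ ≠ [] →
      ∀ G, IsFacet {s | s ⊆ F ∧ ∃ F' ∈ l₁, s ⊆ F'} G → G.card + 1 = n := by
  induction h with
  | empty => exact ⟨[], List.nodup_nil, by simp, by simp⟩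
  | add K F _ hF hc ih =>
    obtain ⟨l, h1, h2, h3⟩ := ih
    refine ⟨l ++ [F], ?_, fun X => by simp [h2, or_comm], fun l₁ X l₂ e hne G hG => ?_⟩
    · rw [List.nodup_append]
      exact ⟨h1, List.nodup_singleton _, fun a ha b hb e =>
        hF ((h2 F).1 (List.mem_singleton.1 hb ▸ e ▸ ha))⟩
    · rcases l₂.eq_nil_or_concat with rfl | ⟨l₃, Y, rfl⟩
      · obtain ⟨rfl, e⟩ := List.append_inj' e rfl
        obtain rfl : F = X := by simpa using e
        obtain ⟨⟨g1, Y, g2, g3⟩, g4⟩ := hG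
        obtain ⟨Z, z1, z2, z3⟩ := hc Y ((h2 Y).1 g2)
        rwa [g4 (F ∩ Z) ⟨inter_subset_left, Z, (h2 Z).2 z1, inter_subset_right⟩
          (subset_inter g1 ((subset_inter g1 g3).trans z2))] at z3
      · rw [List.concat_eq_append, ← List.cons_append, ← List.append_assoc] at e
        exact h3 l₁ X l₃ (List.append_inj' e rfl).1 hne G hG

lemma inter_card {n : ℕ} {F G R : Finset W} (hF : F.card = n) (hG : G.card = n) (h : F ≠ G)
    (h1 : R ⊆ F) (h2 : R ⊆ G) (h3 : R.card + 1 = n) : (F ∩ G).card + 1 = n := by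
  have a := card_le_card (subset_inter h1 h2)
  have b : (F ∩ G).card < F.card := card_lt_card ⟨inter_subset_left, fun k =>
    h (eq_of_subset_of_card_le (k.trans inter_subset_right) (by omega))⟩
  omega

lemma Sh.cone {n : ℕ} {K L : Set (Finset W)} {v : W} (hK : Sh (n + 1) K) (hL : Sh n L)
    (k1 : ∀ G ∈ K, v ∉ G) (l1 : ∀ R ∈ L, v ∉ R ∧ R.card = n)
    (l2 : ∀ R ∈ L, K.Nonempty → ∃ G ∈ K, R ⊆ G) : Sh (n + 1) (K ∪ insert v '' L) := by
  induction hL with
  | empty => simpa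
  | add L R _ hR hc ih =>
    have r := l1 R (Set.mem_insert _ _)
    rw [Set.image_insert_eq, Set.union_insert]
    refine Sh.add _ _ (ih (fun X hX => l1 X (Or.inr hX)) fun X hX => l2 X (Or.inr hX)) ?_ ?_
    · rintro (h | ⟨X, hX, e⟩)
      · exact k1 _ h (mem_insert_self _ _)
      · have := congrArg (erase · v) e
        simp only [erase_insert r.1, erase_insert (l1 X (Or.inr hX)).1] at this
        exact hR (this ▸ hX)
    · rintro X (hX | ⟨X, hX, rfl⟩)
      · obtain ⟨G, hG, s⟩ := l2 R (Set.mem_insert _ _) ⟨X, hX⟩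
        refine ⟨G, Or.inl hG, ?_, ?_⟩
        · rw [insert_inter_of_notMem (k1 X hX)]; exact inter_subset_left.trans s
        · rw [insert_inter_of_notMem (k1 G hG), inter_eq_left.2 s, r.2]
      · obtain ⟨Y, hY, s, c⟩ := hc X hX
        refine ⟨insert v Y, Or.inr ⟨Y, hY, rfl⟩, ?_, ?_⟩
        · rw [← insert_inter_distrib]; exact insert_subset_insert _ s
        · rw [← insert_inter_distrib, card_insert_of_notMem fun h => r.1 (mem_inter.1 h).1, c]

lemma Sh.ears {n : ℕ} {K : Set (Finset W)} (h : Sh n K) (P : Finset W → W → Prop)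
    (hc : ∀ X ∈ K, X.card = n) (h1 : ∀ X ∈ K, ∀ w, P X w → w ∈ X ∧ ∀ Y ∈ K, w ∈ Y → Y = X)
    (h2 : ∀ X ∈ K, ∀ Y ∈ K, ∀ w z, P X w → P Y z → X.erase w = Y.erase z → X = Y) :
    Sh n {X ∈ K | ∀ w, ¬ P X w} ∧ (∀ X ∈ K, ∀ Y ∈ K, X ≠ Y → ∃ G ∈ K, ∀ w, ¬ P G w) ∧
      ∀ X ∈ K, ∀ w, P X w → ∀ Y ∈ K, (∀ w, ¬ P Y w) →
        ∃ G ∈ K, (∀ w, ¬ P G w) ∧ X.erase w ⊆ G := by
  induction h with
  | empty => simpa using Sh.empty
  | add K F _ hF hs ih =>
    obtain ⟨i1, i2, i3⟩ := ih (fun X hX => hc X (Or.inr hX))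
      (fun X hX w p => ⟨(h1 X (Or.inr hX) w p).1, fun Y hY => (h1 X (Or.inr hX) w p).2 Y
        (Or.inr hY)⟩) fun X hX Y hY => h2 X (Or.inr hX) Y (Or.inr hY)
    have mF : F ∈ insert F K := Set.mem_insert _ _
    have key : ∀ X ∈ insert F K, ∀ Y ∈ insert F K, X ≠ Y → ∀ w, P X w →
        (X ∩ Y).card + 1 = n → X.erase w ⊆ Y := fun X hX Y hY ne w p c => by
      have a := h1 X hX w p
      have : X ∩ Y = X.erase w := eq_of_subset_of_card_le (fun x hx => mem_erase.2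
        ⟨fun e => ne (a.2 Y hY (e ▸ (mem_inter.1 hx).2)).symm, (mem_inter.1 hx).1⟩)
        (by rw [card_erase_of_mem a.1, hc X hX]; omega)
      exact this ▸ inter_subset_right
    by_cases hP : ∃ w, P F w
    · obtain ⟨w, p⟩ := hP
      have k : ∀ z, P F z → ∀ X ∈ K, ∃ G ∈ K, (∀ w, ¬ P G w) ∧ F.erase z ⊆ G := fun z p X hX => by
        obtain ⟨Y, hY, -, c⟩ := hs X hX
        have ne : F ≠ Y := fun e => hF (e ▸ hY)
        have s := key F mF Y (Or.inr hY) ne z p c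
        refine ⟨Y, hY, fun y q => ne (h2 F mF Y (Or.inr hY) z y p q ?_), s⟩
        have s2 := key Y (Or.inr hY) F mF ne.symm y q (by rwa [inter_comm])
        have a := h1 F mF z p
        have b := h1 Y (Or.inr hY) y q
        refine subset_antisymm (fun x hx => mem_erase.2 ⟨fun (e : x = y) => ne (b.2 F mF
          (e ▸ mem_of_mem_erase hx)), s hx⟩) fun x hx => mem_erase.2 ⟨fun (e : x = z) => ne (a.2 Y
          (Or.inr hY) (e ▸ mem_of_mem_erase hx)).symm, s2 hx⟩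
      refine ⟨?_, fun X hX Y hY ne => ?_, ?_⟩
      · convert i1 using 1
        ext X
        exact ⟨fun ⟨a, b⟩ => ⟨a.resolve_left fun e => b w (e ▸ p), b⟩, fun ⟨a, b⟩ => ⟨Or.inr a, b⟩⟩
      · obtain ⟨Z, hZ⟩ : K.Nonempty := by
          rcases hX with rfl | hX
          · exact ⟨Y, hY.resolve_left ne.symm⟩
          · exact ⟨X, hX⟩
        obtain ⟨G, a, b, -⟩ := k w p Z hZ
        exact ⟨G, Or.inr a, b⟩
      · intro X hX z q Y hY r
        have hY' : Y ∈ K := hY.resolve_left fun e => r w (e ▸ p)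
        obtain ⟨G, a, b⟩ : ∃ G ∈ K, (∀ w, ¬ P G w) ∧ X.erase z ⊆ G := by
          rcases hX with rfl | hX
          · exact k z q Y hY'
          · exact i3 X hX z q Y hY' r
        exact ⟨G, Or.inr a, b⟩
    · push Not at hP
      refine ⟨?_, fun _ _ _ _ _ => ⟨F, mF, hP⟩, fun X hX z q _ _ _ => ?_⟩
      · have : {X ∈ insert F K | ∀ w, ¬ P X w} = insert F {X ∈ K | ∀ w, ¬ P X w} := by
          ext X
          exact ⟨fun ⟨a, b⟩ => a.imp id fun a => ⟨a, b⟩,
            fun a => a.elim (fun e => by rw [e]; exact ⟨mF, hP⟩) fun a => ⟨Or.inr a.1, a.2⟩⟩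
        rw [this]
        refine Sh.add _ _ i1 (fun h => hF h.1) fun X hX => ?_
        obtain ⟨Y, hY, s, c⟩ := hs X hX.1
        by_cases hp : ∃ y, P Y y
        · obtain ⟨y, q⟩ := hp
          obtain ⟨G, a, b, d⟩ := i3 Y hY y q X hX.1 hX.2
          have : F ∩ Y ⊆ G := fun x hx => d (mem_erase.2 ⟨fun e => hF (((h1 Y (Or.inr hY) y q).2 F
            mF (e ▸ (mem_inter.1 hx).1)) ▸ hY), (mem_inter.1 hx).2⟩)
          exact ⟨G, ⟨a, b⟩, (subset_inter inter_subset_left s).trans this, inter_card (hc F mF)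
            (hc G (Or.inr a)) (fun e => hF (e ▸ a)) inter_subset_left this c⟩
        · push Not at hp
          exact ⟨Y, ⟨hY, hp⟩, s, c⟩
      · have hX : X ∈ K := hX.resolve_left fun e => hP z (e ▸ q)
        obtain ⟨Y, hY, -, c⟩ := hs X hX
        by_cases e : X = Y
        · subst e
          exact ⟨F, mF, hP, key X (Or.inr hX) F mF (fun e => hF (e ▸ hX)) z q
            (by rwa [inter_comm])⟩
        · obtain ⟨G, a, b⟩ := i2 X hX Y hY e
          obtain ⟨G, a, b⟩ := i3 X hX z q G a b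
          exact ⟨G, Or.inr a, b⟩

lemma Sh.small {n : ℕ} (hn : n ≤ 1) {K : Set (Finset W)} (hK : K.Finite) (hc : ∀ X ∈ K, X.card = n) :
    Sh n K := by
  induction K, hK using Set.Finite.induction_on with
  | empty => exact Sh.empty
  | @insert F K hF _ ih =>
    refine Sh.add _ _ (ih fun X hX => hc X (Or.inr hX)) hF fun X hX => ⟨X, hX, inter_subset_right, ?_⟩
    have a := hc F (Or.inl rfl)
    have b := hc X (Or.inr hX)
    have ne : F ≠ X := fun e => hF (e ▸ hX)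
    obtain rfl | rfl : n = 0 ∨ n = 1 := by omega
    · exact absurd ((card_eq_zero.1 a).trans (card_eq_zero.1 b).symm) ne
    · exact inter_card a b ne (empty_subset _) (empty_subset _) rfl

structure Ok (n : ℕ) (A : Set (Finset W × W)) (E : Set (Finset W)) : Prop where
  fA : A.Finite
  fE : E.Finite
  cA : ∀ a ∈ A, a.1.card = n
  cE : ∀ G ∈ E, G.card = n
  i1 : ∀ a ∈ A, ∀ b ∈ A, a.1 = b.1 → a = b
  i2 : ∀ a ∈ A, ∀ b ∈ A, a.2 = b.2 → a = b
  wA : ∀ a ∈ A, ∀ b ∈ A, a.2 ∉ b.1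
  wE : ∀ a ∈ A, ∀ G ∈ E, a.2 ∉ G
  ne : ∀ a ∈ A, a.1 ∉ E

def cx (A : Set (Finset W × W)) (E : Set (Finset W)) : Set (Finset W) :=
  {s | (∃ G ∈ E, s ⊆ G) ∨ ∃ a ∈ A, s ⊆ insert a.2 a.1 ∧ ¬ a.1 ⊆ s}

lemma cx_mono {A : Set (Finset W × W)} {E : Set (Finset W)} {s t : Finset W} (h : t ∈ cx A E)
    (st : s ⊆ t) : s ∈ cx A E :=
  h.imp (fun ⟨G, a, b⟩ => ⟨G, a, st.trans b⟩) fun ⟨a, b, c, d⟩ =>
    ⟨a, b, st.trans c, fun e => d (e.trans st)⟩

lemma Ok.card {n : ℕ} {A : Set (Finset W × W)} {E : Set (Finset W)} (h : Ok n A E)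
    {s : Finset W} (hs : s ∈ cx A E) : s.card ≤ n := by
  rcases hs with ⟨G, a, b⟩ | ⟨a, b, c, d⟩
  · exact h.cE G a ▸ card_le_card b
  · have := card_lt_card (s := s) (t := insert a.2 a.1)
      ⟨c, fun e => d ((subset_insert _ _).trans e)⟩
    rw [card_insert_of_notMem (h.wA a b a b), h.cA a b] at this
    omega

lemma main {D : Set (Finset W)} (h : VD D) : ∀ (n : ℕ) (A : Set (Finset W × W))
    (E : Set (Finset W)), Ok n A E → D = cx A E → Sh n (Prod.fst '' A ∪ E) := by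
  have cK : ∀ {n : ℕ} {A : Set (Finset W × W)} {E : Set (Finset W)}, Ok n A E →
      ∀ X ∈ Prod.fst '' A ∪ E, X.card = n := by
    rintro n A E ok _ (⟨a, ha, rfl⟩ | h)
    exacts [ok.cA a ha, ok.cE _ h]
  have fc : ∀ {n : ℕ} {A : Set (Finset W × W)} {E : Set (Finset W)}, Ok n A E → ∀ a ∈ A,
      ∀ x ∈ a.1, insert a.2 (a.1.erase x) ∈ cx A E := fun ok a ha x hx =>
    Or.inr ⟨a, ha, insert_subset_insert _ (erase_subset _ _), fun e => by
      rcases mem_insert.1 (e hx) with e | e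
      · exact ok.wA a ha a ha (e ▸ hx)
      · simp at e⟩
  induction h with
  | simplex S =>
    intro n A E ok e
    rcases le_or_gt n 1 with hn | hn
    · exact Sh.small hn ((ok.fA.image _).union ok.fE) (cK ok)
    have hS : S.card ≤ n := ok.card (e ▸ Subset.refl S)
    have hA : A = ∅ := Set.eq_empty_of_forall_notMem fun a ha => by
      obtain ⟨x, hx, y, hy, ne⟩ := one_lt_card.1 (ok.cA a ha ▸ hn)
      have h1 : insert a.2 (a.1.erase x) ⊆ S := by have := fc ok a ha x hx; rwa [← e] at this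
      have h2 : insert a.2 (a.1.erase y) ⊆ S := by have := fc ok a ha y hy; rwa [← e] at this
      have : insert a.2 a.1 ⊆ S := fun z hz => by
        by_cases e : z = x
        · exact h2 (mem_insert_of_mem (mem_erase.2 ⟨e ▸ ne, e ▸ hx⟩))
        · exact h1 (by simp only [mem_insert, mem_erase] at hz ⊢; tauto)
      have := card_le_card this
      rw [card_insert_of_notMem (ok.wA a ha a ha), ok.cA a ha] at this
      omega
    have hE : E ⊆ {S} := fun G hG => by
      have : G ∈ cx A E := Or.inl ⟨G, hG, Subset.refl _⟩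
      rw [← e] at this
      exact eq_of_subset_of_card_le this (ok.cE G hG ▸ hS)
    rw [hA, Set.image_empty, Set.empty_union]
    rcases Set.subset_singleton_iff_eq.1 hE with rfl | rfl
    · exact Sh.empty
    · simpa using Sh.add (n := n) ∅ S Sh.empty (by simp) (by simp)
  | shed D v _ _ _ _ hs ihl ihd =>
    intro n A E ok e
    subst e
    rcases le_or_gt n 1 with hn | hn
    · exact Sh.small hn ((ok.fA.image _).union ok.fE) (cK ok)
    have big : ∀ R : Finset W, v ∉ R → insert v R ∈ cx A E → R.card + 1 = n →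
        ∃ t ∈ cx A E, v ∉ t ∧ R ⊆ t ∧ t.card = n := fun R h1 h2 h3 => by
      have := hs R ⟨⟨h1, h2⟩, fun t ht s => (eq_of_subset_of_card_le s (by
        have := ok.card ht.2
        rw [card_insert_of_notMem ht.1] at this; omega)).symm⟩
      simp only [IsFacet, not_and, not_forall] at this
      obtain ⟨t, ht, s, ne⟩ := this ⟨cx_mono h2 (subset_insert _ _), h1⟩
      have := card_lt_card (s := R) (t := t) ⟨s, fun e => ne (subset_antisymm e s)⟩
      exact ⟨t, ht.1, ht.2, s, le_antisymm (ok.card ht.1) (by omega)⟩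
    by_cases hv : ∃ a ∈ A, a.2 = v
    · obtain ⟨a, ha, rfl⟩ := hv
      have k : ∀ x ∈ a.1, a.1.erase x ∈ cx (A \ {a}) E ∧
          ∃ G ∈ Prod.fst '' (A \ {a}) ∪ E, a.1.erase x ⊆ G := fun x hx => by
        obtain ⟨t, ht, h1, h2, h3⟩ := big _ (fun h => ok.wA a ha a ha (mem_of_mem_erase h))
          (fc ok a ha x hx) (by rw [card_erase_of_mem hx, ok.cA a ha]; omega)
        rcases ht with ⟨G, b, c⟩ | ⟨b, hb, c, d⟩
        · exact ⟨Or.inl ⟨G, b, h2.trans c⟩, G, Or.inr b, h2.trans c⟩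
        · have ne : b ≠ a := by
            rintro rfl
            exact d (eq_of_subset_of_card_le ((subset_insert_iff_of_notMem h1).1 c)
              (by rw [h3, ok.cA b ha])).ge
          exact ⟨Or.inr ⟨b, ⟨hb, ne⟩, h2.trans c, fun e => d (e.trans h2)⟩, b.1,
            Or.inl ⟨b, ⟨hb, ne⟩, rfl⟩, (subset_insert_iff_of_notMem fun h =>
              ok.wA b hb a ha (mem_of_mem_erase h)).1 (h2.trans c)⟩
      have ok' : Ok n (A \ {a}) E := ⟨ok.fA.sdiff, ok.fE, fun b hb => ok.cA b hb.1, ok.cE,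
        fun b hb c hc => ok.i1 b hb.1 c hc.1, fun b hb c hc => ok.i2 b hb.1 c hc.1,
        fun b hb c hc => ok.wA b hb.1 c hc.1, fun b hb => ok.wE b hb.1, fun b hb => ok.ne b hb.1⟩
      have nm : a.1 ∉ Prod.fst '' (A \ {a}) ∪ E := by
        rintro (⟨b, hb, e⟩ | h)
        exacts [hb.2 (ok.i1 b hb.1 a ha e), ok.ne a ha h]
      have := Sh.add _ a.1 (ihd n _ E ok' (by
        ext s
        constructor
        · rintro ⟨⟨G, b, c⟩ | ⟨b, hb, c, d⟩, h⟩
          · exact Or.inl ⟨G, b, c⟩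
          · by_cases e : b = a
            · subst e
              obtain ⟨x, hx, h2⟩ := not_subset.1 d
              exact cx_mono (k x hx).1 (subset_erase.2 ⟨(subset_insert_iff_of_notMem h).1 c, h2⟩)
            · exact Or.inr ⟨b, ⟨hb, e⟩, c, d⟩
        · rintro (⟨G, b, c⟩ | ⟨b, hb, c, d⟩)
          · exact ⟨Or.inl ⟨G, b, c⟩, fun h => ok.wE a ha G b (c h)⟩
          · refine ⟨Or.inr ⟨b, hb.1, c, d⟩, fun h => ?_⟩
            rcases mem_insert.1 (c h) with h | h
            exacts [hb.2 (ok.i2 a ha b hb.1 h).symm, ok.wA a ha b hb.1 h])) nm fun X hX => by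
          obtain ⟨x, hx, h2⟩ := not_subset.1 fun s : a.1 ⊆ X => nm (eq_of_subset_of_card_le s
            (by rw [cK ok' X hX, ok.cA a ha]) ▸ hX)
          obtain ⟨G, hG, s⟩ := (k x hx).2
          exact ⟨G, hG, (subset_erase.2 ⟨inter_subset_left, fun h => h2 (mem_inter.1 h).2⟩).trans s,
            inter_card (ok.cA a ha) (cK ok' G hG) (fun e => nm (e ▸ hG)) (erase_subset x _) s
              (by rw [card_erase_of_mem hx, ok.cA a ha]; omega)⟩
      convert this using 1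
      rw [← Set.insert_union, ← Set.image_insert_eq, Set.insert_sdiff_singleton,
        Set.insert_eq_of_mem ha]
    · push Not at hv
      obtain ⟨n, rfl⟩ : ∃ m, n = m + 1 := ⟨n - 1, by omega⟩
      have er : ∀ {X Y : Finset W}, v ∈ X → v ∈ Y → X.erase v = Y.erase v → X = Y :=
        fun h1 h2 e => by rw [← insert_erase h1, e, insert_erase h2]
      have L := ihl n ((fun a => (a.1.erase v, a.2)) '' {a ∈ A | v ∈ a.1})
        ((erase · v) '' {G ∈ E | v ∈ G}) (by
          refine ⟨(ok.fA.subset fun _ h => h.1).image _, (ok.fE.subset fun _ h => h.1).image _,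
            ?_, ?_, ?_, ?_, ?_, ?_, ?_⟩
          · rintro _ ⟨a, ha, rfl⟩; simp [card_erase_of_mem ha.2, ok.cA a ha.1]
          · rintro _ ⟨a, ha, rfl⟩; simp [card_erase_of_mem ha.2, ok.cE a ha.1]
          · rintro _ ⟨a, ha, rfl⟩ _ ⟨b, hb, rfl⟩ e; rw [ok.i1 a ha.1 b hb.1 (er ha.2 hb.2 e)]
          · rintro _ ⟨a, ha, rfl⟩ _ ⟨b, hb, rfl⟩ e; rw [ok.i2 a ha.1 b hb.1 e]
          · rintro _ ⟨a, ha, rfl⟩ _ ⟨b, hb, rfl⟩ h; exact ok.wA a ha.1 b hb.1 (mem_of_mem_erase h)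
          · rintro _ ⟨a, ha, rfl⟩ _ ⟨b, hb, rfl⟩ h; exact ok.wE a ha.1 b hb.1 (mem_of_mem_erase h)
          · rintro _ ⟨a, ha, rfl⟩ ⟨b, hb, e⟩; exact ok.ne a ha.1 (er hb.2 ha.2 e ▸ hb.1)) (by
          ext s
          constructor
          · rintro ⟨h, ⟨G, b, c⟩ | ⟨b, hb, c, d⟩⟩
            · exact Or.inl ⟨_, ⟨G, ⟨b, c (mem_insert_self _ _)⟩, rfl⟩,
                subset_erase.2 ⟨(subset_insert _ _).trans c, h⟩⟩
            · refine Or.inr ⟨_, ⟨b, ⟨hb, (mem_insert.1 (c (mem_insert_self _ _))).resolve_left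
                (hv b hb).symm⟩, rfl⟩, fun x hx => ?_, fun e => d (subset_insert_iff.2 e)⟩
              have := c (mem_insert_of_mem hx)
              have : x ≠ v := fun e => h (e ▸ hx)
              simp only [mem_insert, mem_erase] at *; tauto
          · rintro (⟨_, ⟨G, b, rfl⟩, c⟩ | ⟨_, ⟨b, hb, rfl⟩, c, d⟩)
            · exact ⟨(subset_erase.1 c).2, Or.inl ⟨G, b.1, insert_subset b.2 (subset_erase.1 c).1⟩⟩
            · refine ⟨fun h => ?_, Or.inr ⟨b, hb.1, insert_subset (mem_insert_of_mem hb.2)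
                (c.trans (insert_subset_insert _ (erase_subset _ _))),
                fun e => d (subset_insert_iff.1 e)⟩⟩
              rcases mem_insert.1 (c h) with h | h
              exacts [hv b hb.1 h.symm, by simp at h])
      set K0 := Prod.fst '' {a ∈ A | v ∉ a.1} ∪ {G ∈ E | v ∉ G} with hK0
      set Q := (fun a => insert a.2 (a.1.erase v)) '' {a ∈ A | v ∈ a.1} with hQ
      have wK : ∀ a ∈ A, ∀ X ∈ K0, a.2 ∉ X := by
        rintro a ha _ (⟨b, hb, rfl⟩ | h)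
        exacts [ok.wA a ha b hb.1, ok.wE a ha _ h.1]
      have wQ : ∀ a ∈ A, ∀ b ∈ A, a.2 ∈ insert b.2 (b.1.erase v) → a = b := fun a ha b hb h =>
        (mem_insert.1 h).elim (ok.i2 a ha b hb) fun h => (ok.wA a ha b hb (mem_of_mem_erase h)).elim
      have ok' : Ok (n + 1) {a ∈ A | v ∉ a.1} ({G ∈ E | v ∉ G} ∪ Q) := by
        refine ⟨ok.fA.subset fun _ h => h.1, (ok.fE.subset fun _ h => h.1).union
          ((ok.fA.subset fun _ h => h.1).image _), fun b hb => ok.cA b hb.1, ?_,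
          fun b hb c hc => ok.i1 b hb.1 c hc.1, fun b hb c hc => ok.i2 b hb.1 c hc.1,
          fun b hb c hc => ok.wA b hb.1 c hc.1, ?_, ?_⟩
        · rintro _ (h | ⟨a, ha, rfl⟩)
          · exact ok.cE _ h.1
          · rw [card_insert_of_notMem fun h => ok.wA a ha.1 a ha.1 (mem_of_mem_erase h),
              card_erase_of_mem ha.2, ok.cA a ha.1]; rfl
        · rintro a ha _ (h | ⟨b, hb, rfl⟩)
          · exact ok.wE a ha.1 _ h.1
          · exact fun h => ha.2 (wQ a ha.1 b hb.1 h ▸ hb.2)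
        · rintro a ha (h | ⟨b, hb, e⟩)
          · exact ok.ne a ha.1 h.1
          · exact ok.wA b hb.1 a ha.1 (e ▸ mem_insert_self _ _)
      have top : ∀ t ∈ cx A E, v ∉ t → t.card = n + 1 →
          t ∈ cx {a ∈ A | v ∉ a.1} ({G ∈ E | v ∉ G} ∪ Q) := by
        rintro t (⟨G, b, c⟩ | ⟨b, hb, c, d⟩) h1 h2
        · obtain rfl := eq_of_subset_of_card_le c (by rw [h2, ok.cE G b])
          exact Or.inl ⟨t, Or.inl ⟨b, h1⟩, c⟩
        · by_cases h : v ∈ b.1
          · refine Or.inl ⟨_, Or.inr ⟨b, ⟨hb, h⟩, rfl⟩, fun x hx => ?_⟩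
            have := c hx
            have : x ≠ v := fun e => h1 (e ▸ hx)
            simp only [mem_insert, mem_erase] at *; tauto
          · exact Or.inr ⟨b, ⟨hb, h⟩, c, d⟩
      have bE : ∀ G ∈ E, v ∈ G → ∃ t, G.erase v ⊆ t ∧
          t ∈ cx {a ∈ A | v ∉ a.1} ({G ∈ E | v ∉ G} ∪ Q) := fun G b h => by
        obtain ⟨t, t1, t2, t3, t4⟩ := big (G.erase v) (by simp)
          (Or.inl ⟨G, b, (insert_erase h).le⟩) (by simp [card_erase_of_mem h, ok.cE G b])
        exact ⟨t, t3, top t t1 t2 t4⟩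
      have R := ihd (n + 1) _ _ ok' (by
        ext s
        constructor
        · rintro ⟨⟨G, b, c⟩ | ⟨b, hb, c, d⟩, h⟩
          · by_cases g : v ∈ G
            · obtain ⟨t, t1, t2⟩ := bE G b g
              exact cx_mono t2 ((subset_erase.2 ⟨c, h⟩).trans t1)
            · exact Or.inl ⟨G, Or.inl ⟨b, g⟩, c⟩
          · by_cases g : v ∈ b.1
            · refine Or.inl ⟨_, Or.inr ⟨b, ⟨hb, g⟩, rfl⟩, fun x hx => ?_⟩
              have := c hx
              have : x ≠ v := fun e => h (e ▸ hx)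
              simp only [mem_insert, mem_erase] at *; tauto
            · exact Or.inr ⟨b, ⟨hb, g⟩, c, d⟩
        · rintro (⟨G, b | ⟨b, hb, rfl⟩, c⟩ | ⟨b, hb, c, d⟩)
          · exact ⟨Or.inl ⟨G, b.1, c⟩, fun h => b.2 (c h)⟩
          · refine ⟨cx_mono (fc ok b hb.1 v hb.2) c, fun h => ?_⟩
            rcases mem_insert.1 (c h) with h | h
            exacts [hv b hb.1 h.symm, by simp at h]
          · refine ⟨Or.inr ⟨b, hb.1, c, d⟩, fun h => ?_⟩
            rcases mem_insert.1 (c h) with h | h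
            exacts [hv b hb.1 h.symm, hb.2 h])
      have cR := cK ok'
      rw [← Set.union_assoc, ← hK0] at R cR
      have es : ∀ a ∈ A, (insert a.2 (a.1.erase v)).erase a.2 = a.1.erase v := fun a ha =>
        erase_insert fun h => ok.wA a ha a ha (mem_of_mem_erase h)
      obtain ⟨r1, -, r3⟩ := R.ears
        (fun X w => ∃ a ∈ A, v ∈ a.1 ∧ X = insert a.2 (a.1.erase v) ∧ w = a.2) cR (by
          rintro _ - _ ⟨a, ha, -, rfl, rfl⟩
          refine ⟨mem_insert_self _ _, ?_⟩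
          rintro _ (h | ⟨b, hb, rfl⟩) g
          · exact (wK a ha _ h g).elim
          · rw [wQ a ha b hb.1 g]) (by
          rintro _ - _ - _ _ ⟨a, ha, a1, rfl, rfl⟩ ⟨b, hb, b1, rfl, rfl⟩ e
          rw [es a ha, es b hb] at e
          rw [ok.i1 a ha b hb (er a1 b1 e)])
      have nk : ∀ X ∈ K0 ∪ Q, (∀ w, ¬ ∃ a ∈ A, v ∈ a.1 ∧ X = insert a.2 (a.1.erase v) ∧ w = a.2) ↔
          X ∈ K0 := fun X hX => by
        refine ⟨fun h => hX.resolve_right fun ⟨a, ha, e⟩ => h _ ⟨a, ha.1, ha.2, e.symm, rfl⟩, ?_⟩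
        rintro h _ ⟨a, ha, -, rfl, -⟩
        exact wK a ha _ h (mem_insert_self _ _)
      rw [show {X ∈ K0 ∪ Q | ∀ w, ¬ ∃ a ∈ A, v ∈ a.1 ∧ X = insert a.2 (a.1.erase v) ∧ w = a.2} = K0
        from Set.ext fun X => ⟨fun h => (nk X h.1).1 h.2, fun h => ⟨Or.inl h,
          (nk X (Or.inl h)).2 h⟩⟩] at r1
      have r4 : K0.Nonempty → ∀ a ∈ A, v ∈ a.1 → ∃ G ∈ K0, a.1.erase v ⊆ G := fun ⟨Y, hY⟩ a ha h => by
        obtain ⟨G, g1, g2, g3⟩ := r3 _ (Or.inr ⟨a, ⟨ha, h⟩, rfl⟩) _ ⟨a, ha, h, rfl, rfl⟩ Y (Or.inl hY)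
          ((nk Y (Or.inl hY)).2 hY)
        exact ⟨G, (nk G g1).1 g2, es a ha ▸ g3⟩
      convert r1.cone L (v := v) (by
        rintro _ (⟨a, ha, rfl⟩ | h)
        exacts [ha.2, h.2]) (by
        rintro _ (⟨_, ⟨a, ha, rfl⟩, rfl⟩ | ⟨G, h, rfl⟩)
        · simp [card_erase_of_mem ha.2, ok.cA a ha.1]
        · simp [card_erase_of_mem h.2, ok.cE G h.1]) (by
        rintro _ (⟨_, ⟨a, ha, rfl⟩, rfl⟩ | ⟨G, h, rfl⟩) hne
        · exact r4 hne a ha.1 ha.2
        · obtain ⟨t, t1, ⟨X, b | ⟨b, hb, rfl⟩, c⟩ | ⟨b, hb, c, d⟩⟩ := bE G h.1 h.2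
          · exact ⟨X, Or.inr b, t1.trans c⟩
          · obtain ⟨X, x1, x2⟩ := r4 hne b hb.1 hb.2
            exact ⟨X, x1, ((subset_insert_iff_of_notMem fun g => ok.wE b hb.1 G h.1
              (mem_of_mem_erase g)).1 (t1.trans c)).trans x2⟩
          · exact ⟨b.1, Or.inl ⟨b, hb, rfl⟩, (subset_insert_iff_of_notMem fun g =>
              ok.wE b hb.1 G h.1 (mem_of_mem_erase g)).1 (t1.trans c)⟩) using 1
      ext X
      constructor
      · rintro (⟨a, ha, rfl⟩ | h)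
        · by_cases g : v ∈ a.1
          · exact Or.inr ⟨_, Or.inl ⟨_, ⟨a, ⟨ha, g⟩, rfl⟩, rfl⟩, insert_erase g⟩
          · exact Or.inl (Or.inl ⟨a, ⟨ha, g⟩, rfl⟩)
        · by_cases g : v ∈ X
          · exact Or.inr ⟨_, Or.inr ⟨X, ⟨h, g⟩, rfl⟩, insert_erase g⟩
          · exact Or.inl (Or.inr ⟨h, g⟩)
      · rintro ((⟨a, ha, rfl⟩ | h) | ⟨_, ⟨_, ⟨a, ha, rfl⟩, rfl⟩ | ⟨G, h, rfl⟩, rfl⟩)
        · exact Or.inl ⟨a, ha.1, rfl⟩
        · exact Or.inr h.1
        · exact Or.inl ⟨a, ha.1, (insert_erase ha.2).symm⟩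
        · exact Or.inr (by simpa [insert_erase h.2] using h.1)

lemma Sh.back {U : Type*} [DecidableEq U] (f : W ↪ U) {n : ℕ} {L : Set (Finset U)} (h : Sh n L) :
    ∀ K : Set (Finset W), L = Finset.map f '' K → Sh n K := by
  induction h with
  | empty => intro K e; rw [Set.image_eq_empty.1 e.symm]; exact Sh.empty
  | add L F _ hF hc ih =>
    intro K e
    obtain ⟨X, hX, rfl⟩ : F ∈ Finset.map f '' K := e ▸ Set.mem_insert _ _
    have e2 : L = Finset.map f '' (K \ {X}) := by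
      rw [Set.image_sdiff (map_injective f), ← e, Set.image_singleton,
        Set.insert_sdiff_self_of_notMem hF]
    have := Sh.add _ X (ih _ e2) (by simp) fun Y hY => by
      obtain ⟨Z, hZ, s, c⟩ := hc (Y.map f) (e2 ▸ ⟨Y, hY, rfl⟩)
      obtain ⟨Z, hZ', rfl⟩ : Z ∈ Finset.map f '' (K \ {X}) := e2 ▸ hZ
      rw [← map_inter] at s c
      exact ⟨Z, hZ', map_subset_map.1 s, by rwa [card_map] at c⟩
    rwa [Set.insert_sdiff_singleton, Set.insert_eq_of_mem hX] at this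

theorem result {V : Type} [DecidableEq V] (K : Set (Finset V)) (hfin : K.Finite)
    (hdown : ∀ s ∈ K, ∀ t, t ⊆ s → t ∈ K) (h : VD (stack K)) : Shellable K := by
  have up : ∀ G ∈ K, ∃ F, IsFacet K F ∧ G ⊆ F := fun G hG => by
    obtain ⟨F, h1, h2⟩ := hfin.exists_le_maximal hG
    exact ⟨F, ⟨h2.1, fun t ht s => subset_antisymm (h2.2 ht s) s⟩, h1⟩
  set f : V ↪ V ⊕ Finset V := Function.Embedding.inl with hf
  have nm : ∀ F G : Finset V, Sum.inr F ∉ G.map f := by simp [hf]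
  obtain ⟨n, hn⟩ : ∃ n, ∀ F, IsFacet K F → F.card = n := by
    obtain ⟨n, hn⟩ : IsPure (stack K) := by
      generalize stack K = D at h
      cases h with
      | simplex S => exact ⟨S.card, fun s hs => by rw [hs.2 S (Subset.refl S) hs.1]⟩
      | shed _ v h => exact h
    by_cases e : IsFacet K ∅
    · exact ⟨0, fun F hF => by rw [e.2 F hF.1 (empty_subset _), card_empty]⟩
    refine ⟨n, fun F hF => ?_⟩
    obtain ⟨x, hx⟩ : F.Nonempty := nonempty_iff_ne_empty.2 fun h => e (h ▸ hF)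
    have := hn (insert (Sum.inr F) ((F.erase x).map f)) ⟨Or.inr ⟨F, _, hF, erase_ssubset hx, rfl⟩, by
      rintro _ (⟨G, -, -, rfl⟩ | ⟨F', G, -, g, rfl⟩) s
      · exact (nm F G (s (mem_insert_self _ _))).elim
      · obtain rfl : F = F' := by
          simpa using (mem_insert.1 (s (mem_insert_self _ _))).resolve_right (nm F G)
        refine (eq_of_subset_of_card_le s ?_).symm
        have := card_lt_card g
        rw [card_insert_of_notMem (nm _ _), card_insert_of_notMem (nm _ _), card_map, card_map,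
          card_erase_of_mem hx]
        omega⟩
    rwa [card_insert_of_notMem (nm _ _), card_map, card_erase_add_one hx] at this
  have := main h n ((fun F => (F.map f, Sum.inr F)) '' {F | IsFacet K F}) ∅ (by
    refine ⟨(hfin.subset fun _ h => h.1).image _, Set.finite_empty, ?_, by simp, ?_, ?_, ?_,
      by simp, by simp⟩
    · rintro _ ⟨F, hF, rfl⟩; rw [card_map, hn F hF]
    · rintro _ ⟨F, -, rfl⟩ _ ⟨G, -, rfl⟩ e; rw [map_injective f e]
    · rintro _ ⟨F, -, rfl⟩ _ ⟨G, -, rfl⟩ e; rw [Sum.inr_injective e]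
    · rintro _ ⟨F, -, rfl⟩ _ ⟨G, -, rfl⟩; exact nm F G) (by
    ext s
    constructor
    · rintro (⟨G, g1, g2, rfl⟩ | ⟨F, G, g1, g2, rfl⟩)
      · obtain ⟨F, h1, h2⟩ := up G g1
        exact Or.inr ⟨_, ⟨F, h1, rfl⟩, (map_subset_map.2 h2).trans (subset_insert _ _), fun e =>
          g2 (subset_antisymm (map_subset_map.1 e) h2 ▸ h1)⟩
      · exact Or.inr ⟨_, ⟨F, g1, rfl⟩, insert_subset_insert _ (map_subset_map.2 g2.1), fun e =>
          g2.2 (map_subset_map.1 (((subset_insert_iff.1 e).trans' (subset_erase.2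
            ⟨Subset.refl _, nm F F⟩))))⟩
    · rintro (⟨G, g, -⟩ | ⟨_, ⟨F, hF, rfl⟩, c, d⟩)
      · exact g.elim
      obtain ⟨G, g1, g2⟩ := subset_map_iff.1 (subset_insert_iff.1 c)
      have g3 : G ⊂ F := ⟨g1, fun e => d ((map_subset_map.2 e).trans (g2 ▸ erase_subset _ _))⟩
      by_cases e : Sum.inr F ∈ s
      · exact Or.inr ⟨F, G, hF, g3, by rw [← g2, insert_erase e]⟩
      · exact Or.inl ⟨G, hdown F hF.1 G g1, fun k => g3.ne (k.2 F hF.1 g1).symm, by
          rw [← g2, erase_eq_of_notMem e]⟩)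
  exact ⟨n, hn, (this.back f {F | IsFacet K F} (by rw [Set.union_empty, Set.image_image])).list⟩

end Pool.Agent.Results.MP_1611d4_co.No
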